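import Pool.Agent.Q120.PD.Stm

/-!
# Project PD: assembly
-/

set_option autoImplicit false

namespace Pool.Agent.Q120.PD

open Finset MeasureTheory Filter Pool.Agent.Q120.MG Pool.Agent.Q120.GM Pool.Agent.Q120.CL Pool.Agent.Q120.HL
open scoped Topology

open Classical in
/-- The number of the pairs `n, n - d` of elements of `S` with `n ≤ x`. -/
noncomputable def pairs (S : Set ℕ) (d x : ℕ) : ℕ := ((Finset.Icc 1 x).filter (fun n => n ∈ S ∧ d ≤ n ∧ n - d ∈ S)).card

/-- The number of the pairs is `(1 + o((log log x) ^ (-a))) 𝔖(d) x / log ^ 2 x`, uniformly in all even `d ≤ (log x) ^ B`. -/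
def PLaw (S : Set ℕ) (a B : ℝ) : Prop :=
  ∀ ε : ℝ, 0 < ε → ∃ X : ℝ, ∀ x : ℝ, X ≤ x → ∀ d : ℕ, Even d → 2 ≤ d → (d : ℝ) ≤ Real.log x ^ B →
    |(pairs S d ⌊x⌋₊ : ℝ) - MT d * x / Real.log x ^ 2| ≤ ε / Real.log (Real.log x) ^ a * (MT d * x / Real.log x ^ 2)

theorem tup_pair (S : Set ℕ) {d : ℕ} (hd : 2 ≤ d) (x : ℕ) : tup S {0, d} x = pairs S d x := by
  classical
  unfold tup pairs
  congr 1
  ext n
  simp only [mem_filter, mem_range, mem_Icc, mem_insert, mem_singleton]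
  constructor
  · rintro ⟨h1, h2⟩
    have e0 := h2 0 (Or.inl rfl)
    have e1 := h2 d (Or.inr rfl)
    rw [Nat.sub_zero] at e0
    exact ⟨⟨by omega, by omega⟩, e0.2, e1.1, e1.2⟩
  · rintro ⟨⟨_, h1⟩, h2, h3, h4⟩
    refine ⟨by omega, fun e he => ?_⟩
    rcases he with rfl | rfl
    · exact ⟨Nat.zero_le _, by rwa [Nat.sub_zero]⟩
    · exact ⟨h3, h4⟩

theorem card_two {d : ℕ} (hd : 2 ≤ d) : ({0, d} : Finset ℕ).card = 2 := by
  exact Finset.card_pair (by omega)

theorem rpow_split (L a : ℝ) (hL : 0 < L) : L ^ (1 + a) = L * L ^ a := by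
  rw [Real.rpow_add hL, Real.rpow_one]

theorem lev {z : ℕ → ℕ} {a : ℝ} (ha : 0 < a)
    (h : Tendsto (fun k : ℕ => (z k : ℝ) * Real.log (z k) / Real.log k ^ (1 + a)) atTop atTop) (r : ℕ) {η : ℝ} (hη : 0 < η) :
    ∀ᶠ k : ℕ in atTop, ∀ j, k - mm r k ≤ j → j ≤ k → 16 ≤ z j ∧ 16 / (z j : ℝ) ≤ η / Real.log k ^ a ∧
      Real.log k / (z j * Real.log (z j)) ≤ η / Real.log k ^ a := by
  obtain ⟨M, hM⟩ : ∃ M : ℝ, M = (17 / η + 1) * 2 ^ (1 + a) := ⟨_, rfl⟩
  have hM0 : 0 < M := by rw [hM]; positivity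
  obtain ⟨J, hJ⟩ := eventually_atTop.1 (h.eventually_ge_atTop M)
  have hcmp : Tendsto (fun k : ℕ => Real.log (k : ℝ) ^ a / (k : ℝ)) atTop (𝓝 0) := by
    have h1 := (isLittleO_log_rpow_rpow_atTop a one_pos).comp_tendsto hcast
    have h2 := h1.tendsto_div_nhds_zero
    refine h2.congr fun k => ?_
    simp only [Function.comp_apply, Real.rpow_one]
  have hTa : Tendsto (fun k : ℕ => Real.log (k : ℝ) ^ a) atTop atTop := (tendsto_rpow_atTop ha).comp log_tend
  filter_upwards [back_half r, eventually_ge_atTop (2 * J + 4), log_tend.eventually_ge_atTop 2,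
    hcmp.eventually_le_const (show (0 : ℝ) < η / 16 by positivity), hTa.eventually_ge_atTop η]
    with k h1 h2 h3 h4 h5 j hj1 hj2
  have hkj : k ≤ 2 * j := h1 j hj1
  have hjJ : J ≤ j := by omega
  have hj2' : 2 ≤ j := by omega
  have hk0 : (0 : ℝ) < k := by
    have : 0 < k := by omega
    exact_mod_cast this
  have hj0 : (0 : ℝ) < j := by
    have : 0 < j := by omega
    exact_mod_cast this
  have hL0 : 0 < Real.log k := by linarith
  have hlj : Real.log k / 2 ≤ Real.log j := by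
    have e1 : Real.log k ≤ Real.log (2 * j) := Real.log_le_log hk0 (by exact_mod_cast hkj)
    rw [Real.log_mul (by norm_num) hj0.ne'] at e1
    have := Real.log_two_lt_d9
    linarith
  have hJ' := hJ j hjJ
  have hlj0 : 0 < Real.log j := by linarith
  rw [le_div_iff₀ (Real.rpow_pos_of_pos hlj0 _)] at hJ'
  have key : (17 / η + 1) * (Real.log k * Real.log k ^ a) ≤ z j * Real.log (z j) := by
    refine le_trans ?_ hJ'
    rw [hM, ← rpow_split _ _ hL0]
    have e1 : (Real.log k / 2) ^ (1 + a) ≤ Real.log j ^ (1 + a) := Real.rpow_le_rpow (by linarith) hlj (by linarith)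
    rw [Real.div_rpow hL0.le (by norm_num)] at e1
    have e2 : (0 : ℝ) < 2 ^ (1 + a) := by positivity
    rw [div_le_iff₀ e2] at e1
    calc (17 / η + 1) * Real.log k ^ (1 + a) ≤ (17 / η + 1) * (Real.log j ^ (1 + a) * 2 ^ (1 + a)) :=
          mul_le_mul_of_nonneg_left e1 (by positivity)
      _ = _ := by ring
  obtain ⟨U, hU⟩ : ∃ U : ℝ, U = Real.log k ^ a := ⟨_, rfl⟩
  have hU0 : 0 < U := by rw [hU]; exact Real.rpow_pos_of_pos hL0 _
  rw [← hU] at key h4 h5 ⊢
  have hzpos : 0 < z j * Real.log (z j) := lt_of_lt_of_le (by positivity) key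
  have hz1 : (1 : ℝ) < z j := by
    by_contra hcon
    rw [not_lt] at hcon
    have e1 : z j = 0 ∨ z j = 1 := by
      have : z j ≤ 1 := by exact_mod_cast hcon
      omega
    rcases e1 with e1 | e1
    · rw [e1] at hzpos; simp at hzpos
    · rw [e1] at hzpos; simp at hzpos
  have hz0 : (0 : ℝ) < z j := by linarith
  have hlz : 0 < Real.log (z j) := Real.log_pos hz1
  have hb : 16 * U / η ≤ z j := by
    by_contra hcon
    rw [not_le] at hcon
    have e1 : 16 * U / η ≤ k := by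
      rw [div_le_iff₀ hk0] at h4
      rw [div_le_iff₀ hη]
      linarith
    have e2 : Real.log (z j) ≤ Real.log k := Real.log_le_log hz0 (hcon.le.trans e1)
    have e3 : z j * Real.log (z j) ≤ 16 * U / η * Real.log k :=
      mul_le_mul hcon.le e2 hlz.le (by positivity)
    have e4 : (17 / η + 1) * (Real.log k * U) ≤ 16 * U / η * Real.log k := key.trans e3
    have e5 : 16 * U / η * Real.log k = 16 / η * (Real.log k * U) := by ring
    rw [e5] at e4
    have e6 : 0 < Real.log k * U := by positivity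
    have e7 := le_of_mul_le_mul_right e4 e6
    have e8 : 16 / η < 17 / η := by
      apply div_lt_div_of_pos_right _ hη
      norm_num
    linarith
  refine ⟨?_, ?_, ?_⟩
  · have e1 : (16 : ℝ) ≤ 16 * U / η := by
      rw [le_div_iff₀ hη]
      linarith
    exact_mod_cast e1.trans hb
  · rw [div_le_div_iff₀ hz0 hU0]
    rw [div_le_iff₀ hη] at hb
    linarith
  · rw [div_le_div_iff₀ hzpos hU0]
    have e1 : 1 ≤ η * (17 / η + 1) := by
      have : η * (17 / η + 1) = 17 + η := by field_simp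
      rw [this]; linarith
    have e2 : 0 ≤ Real.log k * U := by positivity
    calc Real.log k * U = 1 * (Real.log k * U) := (one_mul _).symm
      _ ≤ η * (17 / η + 1) * (Real.log k * U) := mul_le_mul_of_nonneg_right e1 e2
      _ = η * ((17 / η + 1) * (Real.log k * U)) := by ring
      _ ≤ η * (z j * Real.log (z j)) := mul_le_mul_of_nonneg_left key hη.le

variable {Ω : Type*} [MeasurableSpace Ω] {μ : Measure Ω} [IsProbabilityMeasure μ] {A : Ω → Set ℕ} {z : ℕ → ℕ}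

/-- **The law above the critical level**, for one exponent `B`. -/
theorem pos_one (hS : J_SID) (hR : J_RAT) (hA : IsModel μ (pr z) A) (hz : ∀ᶠ k : ℕ in atTop, 8 * z k ≤ k) {a : ℝ} (ha : 0 < a)
    (h : Tendsto (fun k : ℕ => (z k : ℝ) * Real.log (z k) / Real.log k ^ (1 + a)) atTop atTop) (B : ℕ) :
    ∀ᵐ ω ∂μ, PLaw (A ω) a B := by
  obtain ⟨c0, hc0, hc⟩ := cr_pos 2
  filter_upwards [fin hA hz 2 B hc0] with ω hω ε hε
  obtain ⟨η, hη⟩ : ∃ η : ℝ, η = ε / (3 * (B + 1)) := ⟨_, rfl⟩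
  have hη0 : 0 < η := by rw [hη]; positivity
  have hηε : 3 * ((B + 1) * η) = ε := by rw [hη]; field_simp
  have hη1 : η ≤ (B + 1) * η := by
    have : (0 : ℝ) ≤ B := Nat.cast_nonneg B
    nlinarith
  have hTa : Tendsto (fun k : ℕ => Real.log (k : ℝ) ^ a) atTop atTop := (tendsto_rpow_atTop ha).comp log_tend
  have hsmall : ∀ᶠ k : ℕ in atTop, (4 + 4 / c0) * (k : ℝ) ^ (-((1 : ℝ) / 2)) ≤ (B + 1) * η / Real.log k ^ a := by
    have h1 := (isLittleO_log_rpow_rpow_atTop a (show (0 : ℝ) < 1 / 2 by norm_num)).comp_tendsto hcast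
    have h2 := h1.bound (show (0 : ℝ) < (B + 1) * η / (4 + 4 / c0) by positivity)
    filter_upwards [h2, log_tend.eventually_gt_atTop 0, eventually_gt_atTop 0] with k hk1 hk2 hk3
    have hk0 : (0 : ℝ) < k := by exact_mod_cast hk3
    simp only [Function.comp_apply] at hk1
    have hU0 : 0 < Real.log (k : ℝ) ^ a := Real.rpow_pos_of_pos hk2 _
    rw [Real.norm_of_nonneg hU0.le, Real.norm_of_nonneg (Real.rpow_nonneg hk0.le _), div_mul_eq_mul_div,
      le_div_iff₀ (by positivity)] at hk1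
    rw [le_div_iff₀ hU0, Real.rpow_neg hk0.le]
    have hw : 0 < (k : ℝ) ^ ((1 : ℝ) / 2) := Real.rpow_pos_of_pos hk0 _
    calc (4 + 4 / c0) * ((k : ℝ) ^ ((1 : ℝ) / 2))⁻¹ * Real.log k ^ a = (Real.log k ^ a * (4 + 4 / c0)) / (k : ℝ) ^ ((1 : ℝ) / 2) := by
          field_simp
      _ ≤ ((B + 1) * η * (k : ℝ) ^ ((1 : ℝ) / 2)) / (k : ℝ) ^ ((1 : ℝ) / 2) := div_le_div_of_nonneg_right hk1 hw.le
      _ = (B + 1) * η := by field_simp
  obtain ⟨K, hK⟩ := eventually_atTop.1 ((hω.and (lev ha h 2 hη0)).and (hsmall.and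
    ((hTa.eventually_ge_atTop ((B + 1) * η)).and ((log_tend.eventually_ge_atTop 1).and (eventually_ge_atTop 4)))))
  refine ⟨2 ^ K, fun x hx d hd1 hd2 hd3 => ?_⟩
  obtain ⟨k, hk, hx1, hx2⟩ := exists_block hx
  obtain ⟨⟨h1, h2⟩, h3, h4, h5, h6⟩ := hK k hk
  have hk3 : 3 ≤ k := by omega
  have hk4 : (4 : ℝ) ≤ k := by exact_mod_cast h6
  have hl2 := Real.log_two_gt_d9
  obtain ⟨hb1, hb2, _⟩ := block_x hx1 hx2
  have hlx2 : 2 ≤ Real.log x := by nlinarith
  have hlx : 0 < Real.log x := by linarith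
  have hlxk := log_le_k hk3 hx1 hx2
  have hx0 : 0 < x := lt_of_lt_of_le (by positivity) hb1
  have hsub : ({0, d} : Finset ℕ) ⊆ range (k ^ B + 1) := by
    refine sub_range hk3 hx1 hx2 fun e he => ?_
    rw [mem_insert, mem_singleton] at he
    rcases he with rfl | rfl
    · rw [Nat.cast_zero]; positivity
    · rwa [Real.rpow_natCast] at hd3
  obtain ⟨hSM, hMT⟩ := hS d hd1 hd2
  have hSc := hc {0, d} (card_two hd2) (by rw [hSM]; exact hMT.ne')
  obtain ⟨U, hU⟩ : ∃ U : ℝ, U = Real.log k ^ a := ⟨_, rfl⟩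
  have hU0 : 0 < U := by rw [hU]; exact Real.rpow_pos_of_pos (by linarith) _
  rw [← hU] at h3 h4
  obtain ⟨e, he⟩ : ∃ e : ℝ, e = (B + 1) * η / U := ⟨_, rfl⟩
  rw [← he] at h3
  have he1 : e ≤ 1 := by
    rw [he, div_le_iff₀ hU0, one_mul]
    exact h4
  have he0 : 0 < e := by rw [he]; positivity
  have hηe : η / U ≤ e := by
    rw [he]
    exact div_le_div_of_nonneg_right hη1 hU0.le
  have hd0 : (0 : ℝ) < d := by
    have : 0 < d := by omega
    exact_mod_cast this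
  have hlogd : Real.log d ≤ B * Real.log k := by
    have e1 : (d : ℝ) ≤ (k : ℝ) ^ B := by
      rw [Real.rpow_natCast] at hd3
      exact hd3.trans (pow_le_pow_left₀ hlx.le hlxk B)
    calc Real.log d ≤ Real.log ((k : ℝ) ^ B) := Real.log_le_log hd0 e1
      _ = B * Real.log k := Real.log_pow _ _
  obtain ⟨f1, f2⟩ := h1 x hx1 hx2 {0, d} hsub (card_two hd2) (SS {0, d}) e hSc h3 he1
  have hS0 : 0 < SS {0, d} := lt_of_lt_of_le hc0 hSc
  have g1 := f1 (fun j hj1 hj2 => by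
    obtain ⟨i1, i2, i3⟩ := h2 j hj1 hj2
    rw [← hU] at i2
    refine (hR d (z j) hd1 hd2 i1).2.trans (mul_le_mul_of_nonneg_right ?_ hS0.le)
    linarith)
  have g2 := f2 (fun j hj1 hj2 => by
    obtain ⟨i1, i2, i3⟩ := h2 j hj1 hj2
    rw [← hU] at i3
    refine le_trans (mul_le_mul_of_nonneg_right ?_ hS0.le) (hR d (z j) hd1 hd2 i1).1
    have hz16 : (16 : ℝ) ≤ z j := by exact_mod_cast i1
    have hzl : 0 < (z j : ℝ) * Real.log (z j) := mul_pos (by linarith) (Real.log_pos (by linarith))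
    have e1 : Real.log d / (z j * Real.log (z j)) ≤ B * (Real.log k / (z j * Real.log (z j))) := by
      rw [← mul_div_assoc]
      exact div_le_div_of_nonneg_right hlogd hzl.le
    have e2 : B * (Real.log k / (z j * Real.log (z j))) ≤ B * (η / U) := mul_le_mul_of_nonneg_left i3 (Nat.cast_nonneg B)
    have e3 : B * (η / U) ≤ e := by
      rw [he, mul_div_assoc]
      refine mul_le_mul_of_nonneg_right (by linarith) (by positivity)
    linarith)
  rw [tup_pair _ hd2] at g1 g2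
  obtain ⟨R, hR'⟩ : ∃ R, R = MT d * x / Real.log x ^ 2 := ⟨_, rfl⟩
  have hRe : SS {0, d} * (x / Real.log x ^ 2) = R := by rw [hR', hSM]; ring
  have hR0 : 0 < R := by rw [hR']; positivity
  rw [hRe] at g1 g2
  rw [← hR']
  have hll : 0 < Real.log (Real.log x) := Real.log_pos (by linarith)
  have hllk : Real.log (Real.log x) ≤ Real.log k := Real.log_le_log hlx hlxk
  have hfin : 3 * e ≤ ε / Real.log (Real.log x) ^ a := by
    have e1 : Real.log (Real.log x) ^ a ≤ U := by rw [hU]; exact Real.rpow_le_rpow hll.le hllk ha.le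
    have e2 : 0 < Real.log (Real.log x) ^ a := Real.rpow_pos_of_pos hll _
    calc 3 * e = ε / U := by rw [he, ← hηε]; ring
      _ ≤ _ := div_le_div_of_nonneg_left hε.le e2 e1
  have h7 : 3 * e * R ≤ ε / Real.log (Real.log x) ^ a * R := mul_le_mul_of_nonneg_right hfin hR0.le
  rw [abs_le]
  constructor
  · linarith
  · linarith

theorem PLaw_mono {S : Set ℕ} {a B B' : ℝ} (hB : B ≤ B') (h : PLaw S a B') : PLaw S a B := by
  intro ε hε
  obtain ⟨X, hX⟩ := h ε hε
  refine ⟨max X 3, fun x hx d h1 h2 h3 => hX x ((le_max_left _ _).trans hx) d h1 h2 (h3.trans ?_)⟩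
  have hx3 : 3 ≤ x := (le_max_right _ _).trans hx
  have hl : 1 ≤ Real.log x := by
    rw [← Real.log_exp 1]
    refine Real.log_le_log (Real.exp_pos 1) ?_
    have := Real.exp_one_lt_d9
    linarith
  exact Real.rpow_le_rpow_of_exponent_le hl hB

/-- **The law above the critical level.** -/
theorem pos_all (hS : J_SID) (hR : J_RAT) (hA : IsModel μ (pr z) A) (hz : ∀ᶠ k : ℕ in atTop, 8 * z k ≤ k) {a : ℝ} (ha : 0 < a)
    (h : Tendsto (fun k : ℕ => (z k : ℝ) * Real.log (z k) / Real.log k ^ (1 + a)) atTop atTop) :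
    ∀ᵐ ω ∂μ, ∀ B : ℝ, PLaw (A ω) a B := by
  have h1 : ∀ᵐ ω ∂μ, ∀ B : ℕ, PLaw (A ω) a B := by
    rw [ae_all_iff]
    exact fun B => pos_one hS hR hA hz ha h B
  filter_upwards [h1] with ω hω B
  obtain ⟨n, hn⟩ := exists_nat_ge B
  exact PLaw_mono hn (hω n)

/-- **Failure** below the critical level. -/
theorem neg_all (hS : J_SID) (hC : J_CHO) (hA : IsModel μ (pr z) A) (hz : ∀ᶠ k : ℕ in atTop, 8 * z k ≤ k) {a B : ℝ} (ha : 0 < a)
    (hB : 0 < B) (h : ¬ Tendsto (fun k : ℕ => (z k : ℝ) * Real.log (z k) / Real.log k ^ (1 + a)) atTop atTop) :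
    ∀ᵐ ω ∂μ, ¬ PLaw (A ω) a B := by
  obtain ⟨c0, hc0, hc1⟩ := cr_pos 2
  rw [tendsto_atTop] at h
  push Not at h
  obtain ⟨M₀, hM₀⟩ := h
  obtain ⟨M, hM⟩ : ∃ M : ℝ, M = max M₀ 1 := ⟨_, rfl⟩
  have hM1 : 1 ≤ M := by rw [hM]; exact le_max_right _ _
  have hfreq : ∃ᶠ k : ℕ in atTop, (z k : ℝ) * Real.log (z k) ≤ M * Real.log k ^ (1 + a) := by
    refine (hM₀.and_eventually (log_tend.eventually_ge_atTop 1)).mono ?_
    rintro k ⟨h1, h2⟩
    have h3 : 0 < Real.log (k : ℝ) ^ (1 + a) := Real.rpow_pos_of_pos (by linarith) _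
    rw [div_lt_iff₀ h3] at h1
    refine h1.le.trans (mul_le_mul_of_nonneg_right ?_ h3.le)
    rw [hM]; exact le_max_left _ _
  obtain ⟨c, hc, hch⟩ := hC a B M ha hB (by linarith)
  obtain ⟨B', hB'⟩ := exists_nat_ge B
  filter_upwards [neg hA hz 2 B'] with ω hω hL
  obtain ⟨ε, hε⟩ : ∃ ε : ℝ, ε = c / (6 * 2 ^ a) := ⟨_, rfl⟩
  have hε0 : 0 < ε := by rw [hε]; positivity
  obtain ⟨X, hX⟩ := hL ε hε0
  have hpow : ∀ᶠ k : ℕ in atTop, X ≤ (2 : ℝ) ^ k - 1 := by
    have h1 : Tendsto (fun k : ℕ => (2 : ℝ) ^ k) atTop atTop := tendsto_pow_atTop_atTop_of_one_lt (by norm_num)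
    filter_upwards [h1.eventually_ge_atTop (X + 1)] with k hk
    linarith
  have hTa : Tendsto (fun k : ℕ => Real.log (k : ℝ) ^ a) atTop atTop := (tendsto_rpow_atTop ha).comp log_tend
  have hsmall : ∀ᶠ k : ℕ in atTop, (8 + 1 / c0) * (k : ℝ) ^ (-((1 : ℝ) / 2)) < c / 2 / Real.log k ^ a := by
    have h1 := (isLittleO_log_rpow_rpow_atTop a (show (0 : ℝ) < 1 / 2 by norm_num)).comp_tendsto hcast
    have h2 := h1.bound (show (0 : ℝ) < c / 4 / (8 + 1 / c0) by positivity)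
    filter_upwards [h2, log_tend.eventually_gt_atTop 0, eventually_gt_atTop 0] with k hk1 hk2 hk3
    have hk0 : (0 : ℝ) < k := by exact_mod_cast hk3
    simp only [Function.comp_apply] at hk1
    have hU0 : 0 < Real.log (k : ℝ) ^ a := Real.rpow_pos_of_pos hk2 _
    rw [Real.norm_of_nonneg hU0.le, Real.norm_of_nonneg (Real.rpow_nonneg hk0.le _), div_mul_eq_mul_div,
      le_div_iff₀ (by positivity)] at hk1
    rw [lt_div_iff₀ hU0, Real.rpow_neg hk0.le]
    have hw : 0 < (k : ℝ) ^ ((1 : ℝ) / 2) := Real.rpow_pos_of_pos hk0 _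
    calc (8 + 1 / c0) * ((k : ℝ) ^ ((1 : ℝ) / 2))⁻¹ * Real.log k ^ a = (Real.log k ^ a * (8 + 1 / c0)) / (k : ℝ) ^ ((1 : ℝ) / 2) := by
          field_simp
      _ ≤ (c / 4 * (k : ℝ) ^ ((1 : ℝ) / 2)) / (k : ℝ) ^ ((1 : ℝ) / 2) := div_le_div_of_nonneg_right hk1 hw.le
      _ = c / 4 := by field_simp
      _ < c / 2 := by linarith
  obtain ⟨k, hk, h1, h2, h3, h3', h4, h5, h6, h7⟩ := (hfreq.and_eventually (hω.and (hch.and (hpow.and ((tendsto_add_atTop_nat 1).eventually hpow |>.and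
    (hsmall.and ((hTa.eventually_ge_atTop (ε * 2 ^ a)).and ((log_tend.eventually_ge_atTop 4).and (eventually_ge_atTop 64))))))))).exists
  obtain ⟨d, hd1, hd2, hd3, hd4⟩ := h2 (z k) hk
  have hk64 : (64 : ℝ) ≤ k := by exact_mod_cast h7
  have hk0 : (0 : ℝ) < k := by linarith
  obtain ⟨hSM, hMT⟩ := hS d hd1 hd2
  have hSc := hc1 {0, d} (card_two hd2) (by rw [hSM]; exact hMT.ne')
  obtain ⟨U, hU⟩ : ∃ U : ℝ, U = Real.log k ^ a := ⟨_, rfl⟩
  have hU0 : 0 < U := by rw [hU]; exact Real.rpow_pos_of_pos (by linarith) _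
  rw [← hU] at h4 h5 hd4
  obtain ⟨w, hw⟩ : ∃ w, w = (k : ℝ) ^ (-((1 : ℝ) / 2)) := ⟨_, rfl⟩
  rw [← hw] at h4
  have hw0 : 0 < w := by rw [hw]; positivity
  obtain ⟨e, he⟩ : ∃ e : ℝ, e = ε * 2 ^ a / U := ⟨_, rfl⟩
  have he0 : 0 < e := by rw [he]; positivity
  have he1 : e ≤ 1 := by rw [he, div_le_one hU0]; exact h5
  -- the two counts
  have hfit : ∀ x : ℝ, X ≤ x → ((k : ℝ) - 1) / 2 ≤ Real.log x → 0 < x →
      (1 - e) * (SS {0, d} * (x / Real.log x ^ 2)) ≤ tup (A ω) {0, d} ⌊x⌋₊ ∧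
        (tup (A ω) {0, d} ⌊x⌋₊ : ℝ) ≤ (1 + e) * (SS {0, d} * (x / Real.log x ^ 2)) := by
    intro x hx hlx hx0
    have hl1 : 1 ≤ ((k : ℝ) - 1) / 2 := by linarith
    have hlx0 : 0 < Real.log x := by linarith
    have e1 := hX x hx d hd1 hd2 (hd3.trans (Real.rpow_le_rpow (by linarith) hlx hB.le))
    rw [← tup_pair _ hd2] at e1
    obtain ⟨R, hR⟩ : ∃ R, R = MT d * x / Real.log x ^ 2 := ⟨_, rfl⟩
    have hRe : SS {0, d} * (x / Real.log x ^ 2) = R := by rw [hR, hSM]; ring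
    rw [← hR] at e1
    rw [hRe]
    have hR0 : 0 < R := by rw [hR]; positivity
    have hll : Real.log k / 2 ≤ Real.log (Real.log x) := by
      have e2 : Real.log k / 2 = Real.log (Real.sqrt k) := by rw [Real.log_sqrt hk0.le]
      rw [e2]
      refine Real.log_le_log (Real.sqrt_pos.2 hk0) (le_trans ?_ hlx)
      rw [Real.sqrt_le_left (by linarith)]
      nlinarith
    have hlk : 0 < Real.log k / 2 := by linarith
    have e3 : ε / Real.log (Real.log x) ^ a ≤ e := by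
      have e4 : (Real.log k / 2) ^ a ≤ Real.log (Real.log x) ^ a := Real.rpow_le_rpow hlk.le hll ha.le
      have e5 : (Real.log k / 2) ^ a = U / 2 ^ a := by rw [Real.div_rpow (by linarith) (by norm_num), hU]
      rw [e5] at e4
      calc ε / Real.log (Real.log x) ^ a ≤ ε / (U / 2 ^ a) := div_le_div_of_nonneg_left hε0.le (by positivity) e4
        _ = e := by rw [he]; field_simp
    have e6 : ε / Real.log (Real.log x) ^ a * R ≤ e * R := mul_le_mul_of_nonneg_right e3 hR0.le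
    have e7 := abs_le.1 e1
    constructor
    · linarith [e7.1]
    · linarith [e7.2]
  have hp4 : (4 : ℝ) ≤ 2 ^ k := by
    calc (4 : ℝ) = 2 ^ 2 := by norm_num
      _ ≤ 2 ^ k := pow_le_pow_right₀ (by norm_num) (by omega)
  have hp5 : (2 : ℝ) ^ k ≤ 2 ^ (k + 1) := pow_le_pow_right₀ (by norm_num) (by omega)
  have i1 := hfit (2 ^ (k + 1) - 1) h3' (by
    have := log_pow_ge (k := k + 1) (by omega)
    push_cast at this
    linarith) (by linarith)
  have i2 := hfit (2 ^ k - 1) h3 (by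
    have := log_pow_ge (k := k) (by omega)
    linarith) (by linarith)
  rw [floor_pow] at i1 i2
  have hsub : ({0, d} : Finset ℕ) ⊆ range ((k - 1) ^ B' + 1) := by
    intro m hm
    rw [mem_range]
    have e2 : (d : ℝ) ≤ (((k - 1) ^ B' : ℕ) : ℝ) := by
      push_cast
      rw [Nat.cast_sub (by omega)]
      push_cast
      have hl1 : 1 ≤ ((k : ℝ) - 1) / 2 := by linarith
      calc (d : ℝ) ≤ (((k : ℝ) - 1) / 2) ^ B := hd3
        _ ≤ (((k : ℝ) - 1) / 2) ^ (B' : ℝ) := Real.rpow_le_rpow_of_exponent_le hl1 hB'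
        _ = (((k : ℝ) - 1) / 2) ^ B' := Real.rpow_natCast _ _
        _ ≤ ((k : ℝ) - 1) ^ B' := pow_le_pow_left₀ (by linarith) (by linarith) B'
    have e3 : d ≤ (k - 1) ^ B' := by exact_mod_cast e2
    rw [mem_insert, mem_singleton] at hm
    rcases hm with rfl | rfl
    · omega
    · omega
  have h9 := h1 {0, d} hsub (card_two hd2) (SS {0, d}) e (SS_nonneg _) he0.le he1 i1.1 i2.2
  rw [← hw] at h9
  have h10 : SS {0, d} * (1 - 3 * e - 8 * w) ≤ (1 - c / U) * SS {0, d} + w := h9.trans (by linarith)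
  have hS0 : 0 < SS {0, d} := lt_of_lt_of_le hc0 hSc
  have h11 : w ≤ w / c0 * SS {0, d} := by
    rw [div_mul_eq_mul_div, le_div_iff₀ hc0]
    exact mul_le_mul_of_nonneg_left hSc hw0.le
  have h12 : SS {0, d} * (1 - 3 * e - 8 * w) ≤ SS {0, d} * (1 - c / U + w / c0) := by linarith
  have h13 := le_of_mul_le_mul_left h12 hS0
  have h14 : 3 * e = c / 2 / U := by rw [he, hε]; field_simp; ring
  have h15 : c / U = c / 2 / U + c / 2 / U := by ring
  have h16 : (8 + 1 / c0) * w = 8 * w + w / c0 := by ring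
  linarith

end Pool.Agent.Q120.PD
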