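import Pool.Agent.Q120.HL.H7

/-!
# Project PD: prime pairs with an error term in the Cramér–Granville models, the critical level

`z : ℕ → ℕ` gives the level: on the block `2 ^ k ≤ n < 2 ^ (k + 1)` the random set contains each `n` without prime factors `p < z k` independently with
probability `1 / (V log n)` (at most `1`), `V = ∏_{p < z k} (1 - 1/p)`, and no other `n`. Result (assembled from the jobs): let `a, B > 0`. Almost surely the number of the pairs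
`n, n - d ≤ x` of the random set is `(1 + o((log log x) ^ (-a))) 𝔖(d) x / log ^ 2 x`, uniformly in all even `d ≤ (log x) ^ B`, if `z_k log z_k / (log k) ^ (1 + a) → ∞`, and this
fails almost surely otherwise. (The question MP_678834_nt is `a = B = 2`.)

Notation of the library (`Pool.Agent.Q120.HL`): `nu D p` number of the classes of `D` modulo `p`, `loc D p = (1 - nu D p / p) / (1 - 1 / p) ^ D.card`,
`Sz D z = ∏_{p < z} loc D p`, `SS D = ∏'_p loc D p` (`Sz_tendsto : Sz D z → SS D`, `Sz_split`, `SS_lower`, `loc_le_one`, `prod_ge`, `multipliable_loc`), `Dy r y = {0, P, …, r P}`,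
`P = PQ y` the product of the primes below `y` (`Sz_Dy`, `SS_Dy`, `nu_Dy`), `Vf z = ∏_{p < z} (1 - 1 / p)` (`Pool.Agent.Q120.MG`).

Each job is a definition `J_… : Prop`; a theorem `t_… : J_…` is to be proved. The proofs are complete in the docstrings.
-/

set_option autoImplicit false

namespace Pool.Agent.Q120.PD

open Finset Filter Pool.Agent.Q120.MG Pool.Agent.Q120.GM Pool.Agent.Q120.CL Pool.Agent.Q120.HL
open scoped Topology

/-- The singular series of the pairs with difference `d`, as in the question. -/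
noncomputable def MT (d : ℕ) : ℝ := 2 * (∏' p : {p : ℕ // p.Prime ∧ 2 < p}, (1 - 1 / (((p.1 : ℕ) : ℝ) - 1) ^ 2)) *
  ∏ p ∈ d.primeFactors.filter (fun p : ℕ => 2 < p), (((p : ℝ) - 1) / ((p : ℝ) - 2))

/-- **Job SID.** The singular series (for `D = {0, d}`, `d` even).
Proof. `nu {0, d} p = 1` if `p ∣ d`, else `2`; `card = 2`. So `loc {0, d} 2 = 2`; for `p > 2`: `loc = 1 - 1 / (p - 1) ^ 2` if `p ∤ d`, and `loc = p / (p - 1) = (1 - 1 / (p - 1) ^ 2) ((p - 1) / (p - 2))` if `p ∣ d`.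
The product over all primes is the factor at `2` times the product over the odd primes (`Multipliable` by `multipliable_loc`; or pass to the limit in the finite products over `p < z` by `Sz_tendsto` and `Multipliable` of `1 - 1 / (p - 1) ^ 2`,
as `∑ 1 / (p - 1) ^ 2` converges; `multipliable_of_summable_log` or `Real.multipliable_one_add_of_summable`). -/
def J_SID : Prop := ∀ d : ℕ, Even d → 2 ≤ d → SS {0, d} = MT d ∧ 0 < MT d

/-- **Job RAT.** Comparison of the singular series and its partial products.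
Proof. First inequality: for `w ≥ z`, `Sz D w = Sz D z * ∏_{z ≤ p < w} loc D p` (`Sz_split`); for `p ≥ z` (`≥ 3`), `p ∤ d`, `loc ≤ 1` (`loc_le_one`: `nu = 2 = card`), for `p ∣ d` `loc = p / (p - 1) = 1 / (1 - 1 / p) ≤ 1 / (1 - 1 / z)`. If `m` is the
number of the primes `p ≥ z` dividing `d`: `z ^ m ≤ d`, so `m ≤ log d / log z`, and `Sz D w (1 - 1 / z) ^ m ≤ Sz D z`; `(1 - 1 / z) ^ m ≥ 1 - m / z` (Bernoulli). Let `w → ∞` (`Sz_tendsto`). Second: `SS_lower` gives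
`(1 - 8 / z) Sz ≤ SS`, and `1 ≤ (1 + 16 / z) (1 - 8 / z)` for `z ≥ 16`. -/
def J_RAT : Prop := ∀ d z : ℕ, Even d → 2 ≤ d → 16 ≤ z →
  (1 - Real.log d / (z * Real.log z)) * SS {0, d} ≤ Sz {0, d} z ∧ Sz {0, d} z ≤ (1 + 16 / z) * SS {0, d}

/-- **Job CHO.** Differences for which the partial product is too small.
Proof. Let `L = log k`, and let `κ > 0`, `K ≥ 2` be such that for all large `y` at least `κ y / log y` primes lie in `[y / K, y)` (Chebyshev; Mathlib has `Chebyshev.theta` with upper and lower bounds, or use the prime number theorem of the library).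
`y = ⌊(B / 3) L⌋`, so `4 ^ y ≤ k ^ (B / 2) ≤ ((k - 1) / 2) ^ B` for large `k`.
Case 1: `z ≤ y / K`. `d = PQ y`, the product of the primes `< y` (`{0, d} = Dy 1 y`, `PQ y ≤ 4 ^ y` as in `Dy_le`): `Sz = 1 / Vf z` (`Sz_Dy`), `SS ≥ (1 - 8 / y) / Vf y` (`SS_Dy`), `Vf y / Vf z = ∏_{z ≤ p < y} (1 - 1 / p) ≤ (1 - 1 / y) ^ (κ y / log y) ≤ exp (-κ / log y) ≤ 1 - κ / (2 log y)`.
So `Sz ≤ (1 - κ / (2 log y)) / (1 - 8 / y) SS ≤ (1 - κ / (4 log y)) SS`, and `log y ≤ L ^ a` for large `k`.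
Case 2: `z > y / K`, so `z ≥ B L / (4 K)` for large `k`. `K₁ = max K ⌈2 K / κ⌉`, `m = ⌊(B / 2) L / log (K₁ z)⌋`. `[z, K₁ z)` contains at least `κ K₁ z / log (K₁ z) ≥ (B / 2) L / log (K₁ z) ≥ m` primes (`z ≥ B L / (4 K)`, `κ K₁ ≥ 2 K`); take `m` of them, `p_1, …, p_m`, and
`d = 2 p_1 ⋯ p_m ≤ 2 (K₁ z) ^ m ≤ 2 exp (B L / 2) = 2 k ^ (B / 2) ≤ ((k - 1) / 2) ^ B`. `SS = Sz * ∏_{p ≥ z} loc ≥ Sz (1 + 1 / (K₁ z)) ^ m (1 - ∑_{n ≥ z} 1 / (n - 1) ^ 2) ≥ Sz (1 + m / (K₁ z)) (1 - 2 / z)`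
(in finite products over `z ≤ p < w`, then `w → ∞`; `loc = p / (p - 1) ≥ 1 + 1 / p ≥ 1 + 1 / (K₁ z)` for the `p_i`; `∑_{n ≥ z} 1 / (n - 1) ^ 2 ≤ 1 / (z - 2) ≤ 2 / z`). As `z log z ≤ M L ^ (1 + a)`: `log z ≤ C log L` and `m → ∞`, so `m ≥ 8 K₁` and
`(1 + m / (K₁ z)) (1 - 2 / z) ≥ 1 + m / (2 K₁ z)`; `m / (2 K₁ z) ≤ 1` as `m ≤ (B / 2) L / log (K₁ z) ≤ 2 K z / log (K₁ z)`. So `Sz ≤ (1 - m / (4 K₁ z)) SS` and `m / (4 K₁ z) ≥ B L / (16 K₁ z log (K₁ z)) ≥ c' L / (z log z) ≥ (c' / M) / L ^ a`. -/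
def J_CHO : Prop := ∀ a B M : ℝ, 0 < a → 0 < B → 0 < M → ∃ c : ℝ, 0 < c ∧ ∀ᶠ k : ℕ in atTop, ∀ z : ℕ,
  (z : ℝ) * Real.log z ≤ M * Real.log k ^ (1 + a) → ∃ d : ℕ, Even d ∧ 2 ≤ d ∧ (d : ℝ) ≤ (((k : ℝ) - 1) / 2) ^ B ∧
    Sz {0, d} z ≤ (1 - c / Real.log k ^ a) * SS {0, d}

end Pool.Agent.Q120.PD
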